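import Pool.Agent.X20.Tr.AvD

/-!
# Correlations of two bounded sequences along `⌊α n ^ c⌋`

From Mathlib: `dimH E`: the Hausdorff dimension of `E`; `⌊x⌋₊`: the integer part; `𝓝`: neighbourhoods.
-/

set_option autoImplicit false

namespace Pool.Agent.Results.MP_c45d52_nt.AlongDilatedPowers

open Finset Filter Topology
open Pool.Agent.X20.Tr

/-- For every real `c > 1` there is `0 < κ < 1` such that for all sequences `f 0, f 1, …` and `w 0, w 1, …` of functions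
with values in the unit disc there is a set `E` of real numbers of Hausdorff dimension at most `1 - κ` such that for
every real `α > 0` outside `E`, all `i, j`, all nonnegative integers `h`, `h'` and every complex `ρ`: the averages of
`f i (n + h) w j (n + h')` tend to `ρ` if and only if the averages of `f i (m_n + h) w j (m_n + h')`,
`m_n = ⌊α n ^ c⌋`, tend to `ρ`. -/
theorem result (c : ℝ) (hc : 1 < c) : ∃ κ : ℝ, 0 < κ ∧ κ < 1 ∧ ∀ f w : ℕ → ℕ → ℂ,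
    (∀ i n, ‖f i n‖ ≤ 1) → (∀ i n, ‖w i n‖ ≤ 1) →
    ∃ E : Set ℝ, dimH E ≤ ENNReal.ofReal (1 - κ) ∧ ∀ α : ℝ, 0 < α → α ∉ E → ∀ (i j h h' : ℕ) (ρ : ℂ),
      Tendsto (fun N : ℕ => (1 / (N : ℂ)) * ∑ n ∈ Icc 1 N, f i (n + h) * w j (n + h')) atTop (𝓝 ρ) ↔
        Tendsto (fun N : ℕ => (1 / (N : ℂ)) *
          ∑ n ∈ Icc 1 N, f i (⌊α * (n : ℝ) ^ c⌋₊ + h) * w j (⌊α * (n : ℝ) ^ c⌋₊ + h')) atTop (𝓝 ρ) := by
  obtain ⟨κ, hκ0, hκ1, H⟩ := avSparse c hc
  refine ⟨κ, hκ0, hκ1, fun f w hf hw => ?_⟩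
  obtain ⟨E, hE, h⟩ := H (ℕ × ℕ × ℕ × ℕ) (fun t n => f t.1 (n + t.2.2.1) * w t.2.1 (n + t.2.2.2)) (fun t n => by
    rw [norm_mul]
    exact mul_le_one₀ (hf _ _) (norm_nonneg _) (hw _ _))
  exact ⟨E, hE, fun α hα hαE i j a b ρ => h α hα hαE (i, j, a, b) ρ⟩

end Pool.Agent.Results.MP_c45d52_nt.AlongDilatedPowers
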